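import Mathlib

/-!
MP_24b7a7_co: the `(G, q, g)` containment game, and the eighth plane.

If `max_{t ≤ T} g(t) ≤ c √T` for some `c < 1` and infinitely many `T`, then `1` lies in `q(E, g)`
but not in `q(E, ∞)`.
-/

set_option autoImplicit false

namespace Pool.Agent.Results.MP_24b7a7_co.BelowSquareRoot

open Finset Filter

section Game

variable {V : Type} [DecidableEq V]

/-- The number of vertices which Container may delete at turn `t + 1`. -/
noncomputable def quota (q : ℝ) (t : ℕ) : ℕ := ⌊((t : ℝ) + 1) * q⌋₊ - ⌊(t : ℝ) * q⌋₊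

/-- A strategy of Container: for turn `t + 1` it is given the occupied sets `B 0, …, B t` and the
set of the vertices deleted so far, and it answers with a set of vertices to delete. -/
abbrev Strategy (V : Type) := (t : ℕ) → (Fin (t + 1) → Finset V) → Finset V → Finset V

/-- The set of the vertices deleted in the first `t` turns, if Container follows `σ` and the
occupied sets are `B 0, B 1, …`. -/
def deleted (σ : Strategy V) (B : ℕ → Finset V) : ℕ → Finset V
  | 0 => ∅
  | t + 1 => deleted σ B t ∪ σ t (fun i => B i) (deleted σ B t)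

/-- At every turn Container deletes at most `quota` vertices, none of them occupied. -/
def ContainerLegal (q : ℝ) (σ : Strategy V) (B : ℕ → Finset V) : Prop :=
  ∀ t, (σ t (fun i => B i) (deleted σ B t)).card ≤ quota q t ∧
    Disjoint (σ t (fun i => B i) (deleted σ B t)) (B t)

/-- At every turn `t + 1` Spreader newly occupies at most `g (t + 1)` vertices, each of which is
not deleted and is reached by one step from a vertex of `B t`. -/
def SpreaderLegal (step : V → V → Prop) (g : ℕ → ℕ∞) (σ : Strategy V) (B : ℕ → Finset V) : Prop :=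
  ∀ t, B t ⊆ B (t + 1) ∧ ((B (t + 1) \ B t).card : ℕ∞) ≤ g (t + 1) ∧
    ∀ v ∈ B (t + 1) \ B t, v ∉ deleted σ B (t + 1) ∧ ∃ u ∈ B t, step u v

/-- Container has a strategy that wins the game from the occupied set `B₀`: against every play of
Spreader it is legal, and from some turn on no new vertex is occupied. -/
def ContainerWins (step : V → V → Prop) (q : ℝ) (g : ℕ → ℕ∞) (B₀ : Finset V) : Prop :=
  ∃ σ : Strategy V, ∀ B : ℕ → Finset V, B 0 = B₀ → SpreaderLegal step g σ B →
    ContainerLegal q σ B ∧ ∃ T, ∀ t, T ≤ t → B t = B T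

/-- `q(G, g)`: the set of all `q > 0` for which Container wins from every finite set. -/
def winSet (step : V → V → Prop) (g : ℕ → ℕ∞) : Set ℝ :=
  {q | 0 < q ∧ ∀ B₀ : Finset V, ContainerWins step q g B₀}

end Game

/-- The vertices of the eighth plane. -/
abbrev EighthPlane := {p : ℤ × ℤ // 0 ≤ p.1 ∧ p.1 ≤ p.2}

/-- The edges of the eighth plane, from `(x, y)` to `(x, y + 1)` and to `(x + 1, y + 1)`. -/
def up (u v : EighthPlane) : Prop :=
  v.1.2 = u.1.2 + 1 ∧ (v.1.1 = u.1.1 ∨ v.1.1 = u.1.1 + 1)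

/-! ### Container wins -/

/-- the point `(x, H)` -/
def pt (H : ℕ) (x : Fin (H + 1)) : EighthPlane :=
  ⟨((x : ℕ), (H : ℤ)), by
    have := x.2
    constructor
    · positivity
    · show ((x : ℕ) : ℤ) ≤ (H : ℤ)
      omega⟩

lemma pt_inj (H : ℕ) : Function.Injective (pt H) := by
  intro x y h
  have h1 : ((x : ℕ) : ℤ) = ((y : ℕ) : ℤ) := congrArg (fun p : EighthPlane => p.1.1) h
  exact Fin.ext (by exact_mod_cast h1)

/-- row `H` -/
def row (H : ℕ) : Finset EighthPlane := univ.map ⟨pt H, pt_inj H⟩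

lemma mem_row {H : ℕ} {v : EighthPlane} : v ∈ row H ↔ v.1.2 = (H : ℤ) := by
  constructor
  · intro h
    obtain ⟨x, -, hx⟩ := mem_map.1 h
    rw [← hx]
    rfl
  · intro h
    have h0 := v.2.1
    have h1 := v.2.2
    refine mem_map.2 ⟨⟨v.1.1.toNat, by omega⟩, mem_univ _, ?_⟩
    apply Subtype.ext
    apply Prod.ext
    · show ((v.1.1.toNat : ℕ) : ℤ) = v.1.1
      omega
    · exact h.symm

lemma card_row (H : ℕ) : (row H).card = H + 1 := by
  simp [row]

/-- `v` (in row `H`) can still be reached from an occupied vertex which is not late -/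
def Urgent (H : ℕ) (t : ℕ) (b : Finset EighthPlane) (v : EighthPlane) : Prop :=
  ∃ u ∈ b, (t : ℤ) ≤ u.1.2 ∧ u.1.1 ≤ v.1.1 ∧ v.1.1 ≤ u.1.1 + ((H : ℤ) - u.1.2)

open Classical in
/-- undeleted vertices of row `H` which are not holes -/
noncomputable def U1 (D H : ℕ) (del : Finset EighthPlane) : Finset EighthPlane :=
  (row H \ del).filter fun v => ¬ ((D : ℤ) + 1) ∣ v.1.1

open Classical in
/-- undeleted urgent vertices of row `H` -/
noncomputable def U2 (H t : ℕ) (b del : Finset EighthPlane) : Finset EighthPlane :=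
  (row H \ del).filter fun v => Urgent H t b v

open Classical in
/-- the strategy: first everything in row `H` that is not a hole, then urgent holes first -/
noncomputable def sig (D H : ℕ) : Strategy EighthPlane := fun t h del =>
  if h1 : (U1 D H del).Nonempty then {h1.choose}
  else if h2 : (U2 H t (h (Fin.last t)) del).Nonempty then {h2.choose}
  else if h3 : (row H \ del).Nonempty then {h3.choose} else ∅

lemma sig_spec (D H t : ℕ) (h : Fin (t + 1) → Finset EighthPlane) (del : Finset EighthPlane) :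
    ((row H \ del).Nonempty → ∃ v ∈ row H \ del, sig D H t h del = {v} ∧
      ((U1 D H del).Nonempty → v ∈ U1 D H del) ∧
      (¬ (U1 D H del).Nonempty → (U2 H t (h (Fin.last t)) del).Nonempty →
        v ∈ U2 H t (h (Fin.last t)) del)) ∧
    (¬ (row H \ del).Nonempty → sig D H t h del = ∅) := by
  classical
  constructor
  · intro hne
    by_cases h1 : (U1 D H del).Nonempty
    · refine ⟨h1.choose, (mem_filter.1 h1.choose_spec).1, ?_, fun _ => h1.choose_spec,
        fun h => absurd h1 h⟩
      simp only [sig, dif_pos h1]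
    · by_cases h2 : (U2 H t (h (Fin.last t)) del).Nonempty
      · refine ⟨h2.choose, (mem_filter.1 h2.choose_spec).1, ?_, fun h => absurd h h1,
          fun _ _ => h2.choose_spec⟩
        simp only [sig, dif_neg h1, dif_pos h2]
      · refine ⟨hne.choose, hne.choose_spec, ?_, fun h => absurd h h1, fun _ h => absurd h h2⟩
        simp only [sig, dif_neg h1, dif_neg h2, dif_pos hne]
  · intro hne
    have h1 : ¬ (U1 D H del).Nonempty := fun ⟨v, hv⟩ => hne ⟨v, (mem_filter.1 hv).1⟩
    have h2 : ¬ (U2 H t (h (Fin.last t)) del).Nonempty := fun ⟨v, hv⟩ =>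
      hne ⟨v, (mem_filter.1 hv).1⟩
    simp only [sig, dif_neg h1, dif_neg h2, dif_neg hne]

section Play

variable {D H Y₀ : ℕ} {B : ℕ → Finset EighthPlane} {g : ℕ → ℕ∞}

/-- the state of the deletions -/
lemma deleted_succ (t : ℕ) :
    deleted (sig D H) B (t + 1) = deleted (sig D H) B t ∪
      sig D H t (fun i => B i) (deleted (sig D H) B t) := rfl

lemma sdiff_succ (t : ℕ) :
    row H \ deleted (sig D H) B (t + 1) = (row H \ deleted (sig D H) B t) \
      sig D H t (fun i => B i) (deleted (sig D H) B t) := by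
  rw [deleted_succ]
  ext v
  simp only [Finset.mem_sdiff, Finset.mem_union, not_or]
  tauto

lemma card_left (t : ℕ) : (row H \ deleted (sig D H) B t).card = H + 1 - t := by
  induction t with
  | zero => simp [deleted, card_row]
  | succ t ih =>
    rw [sdiff_succ]
    by_cases hne : (row H \ deleted (sig D H) B t).Nonempty
    · obtain ⟨v, hv, hs, -⟩ := (sig_spec D H t (fun i => B i) (deleted (sig D H) B t)).1 hne
      rw [hs, sdiff_singleton_eq_erase, card_erase_of_mem hv, ih]
      omega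
    · rw [(sig_spec D H t (fun i => B i) (deleted (sig D H) B t)).2 hne, sdiff_empty, ih]
      have := not_nonempty_iff_eq_empty.1 hne
      rw [this] at ih
      simp at ih
      omega

lemma U1_card (hH : H = D * D + D) (t : ℕ) :
    (U1 D H (deleted (sig D H) B t)).card ≤ D * D - t := by
  classical
  induction t with
  | zero =>
    simp only [deleted, U1, sdiff_empty, Nat.sub_zero]
    have h1 := card_filter_add_card_filter_not (s := row H)
      (fun v : EighthPlane => ((D : ℤ) + 1) ∣ v.1.1)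
    rw [card_row] at h1
    have h2 : D + 1 ≤ ((row H).filter fun v : EighthPlane => ((D : ℤ) + 1) ∣ v.1.1).card := by
      have h3 : (univ : Finset (Fin (D + 1))).card ≤
          ((row H).filter fun v : EighthPlane => ((D : ℤ) + 1) ∣ v.1.1).card := by
        refine card_le_card_of_injOn (fun i => pt H ⟨i.1 * (D + 1), ?_⟩) ?_ ?_
        · have := i.2
          have h4 : i.1 * (D + 1) ≤ D * (D + 1) := Nat.mul_le_mul_right _ (by omega)
          rw [hH]
          nlinarith
        · intro i _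
          refine mem_coe.2 (mem_filter.2 ⟨mem_row.2 rfl, ?_⟩)
          show ((D : ℤ) + 1) ∣ ((i.1 * (D + 1) : ℕ) : ℤ)
          exact ⟨i.1, by push_cast; ring⟩
        · intro i _ j _ hij
          have h5 := pt_inj H hij
          have h6 : i.1 * (D + 1) = j.1 * (D + 1) := congrArg Fin.val h5
          exact Fin.ext (Nat.eq_of_mul_eq_mul_right (Nat.succ_pos D) h6)
      simpa using h3
    omega
  | succ t ih =>
    set del := deleted (sig D H) B t with hdel
    have hsub : U1 D H (deleted (sig D H) B (t + 1)) ⊆ U1 D H del := by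
      intro v hv
      rw [U1, sdiff_succ] at hv
      have := mem_filter.1 hv
      exact mem_filter.2 ⟨(mem_sdiff.1 this.1).1, this.2⟩
    by_cases hne : (U1 D H del).Nonempty
    · have hne' : (row H \ del).Nonempty := hne.imp fun v hv => (mem_filter.1 hv).1
      obtain ⟨v, -, hs, h1, -⟩ := (sig_spec D H t (fun i => B i) del).1 hne'
      have hv := h1 hne
      have hlt : (U1 D H (deleted (sig D H) B (t + 1))) ⊆ (U1 D H del).erase v := by
        intro w hw
        refine mem_erase.2 ⟨?_, hsub hw⟩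
        rintro rfl
        rw [U1, sdiff_succ] at hw
        have := (mem_sdiff.1 (mem_filter.1 hw).1).2
        rw [← hdel, hs] at this
        exact this (mem_singleton_self _)
      have h3 := card_le_card hlt
      rw [card_erase_of_mem hv] at h3
      omega
    · have h0 : (U1 D H del) = ∅ := not_nonempty_iff_eq_empty.1 hne
      rw [h0] at hsub
      rw [subset_empty.1 hsub]
      simp

lemma U1_empty (hH : H = D * D + D) {t : ℕ} (ht : D * D ≤ t) :
    U1 D H (deleted (sig D H) B t) = ∅ := by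
  have := U1_card (B := B) hH t
  exact card_eq_zero.1 (by omega)

lemma row_le (h0 : ∀ v ∈ B 0, v.1.2 ≤ (Y₀ : ℤ))
    (hn : ∀ t, ∀ v ∈ B (t + 1) \ B t, ∃ u ∈ B t, up u v) (t : ℕ) :
    ∀ v ∈ B t, v.1.2 ≤ (Y₀ : ℤ) + t := by
  induction t with
  | zero => simpa using h0
  | succ t ih =>
    intro v hv
    by_cases hvt : v ∈ B t
    · have := ih v hvt
      push_cast
      omega
    · obtain ⟨u, hu, hup⟩ := hn t v (mem_sdiff.2 ⟨hv, hvt⟩)
      have := ih u hu
      have := hup.1
      push_cast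
      omega

lemma ancestor (h0 : ∀ v ∈ B 0, v.1.2 ≤ (Y₀ : ℤ)) (hs : ∀ t, B t ⊆ B (t + 1))
    (hn : ∀ t, ∀ v ∈ B (t + 1) \ B t, ∃ u ∈ B t, up u v) (t : ℕ) :
    ∀ u ∈ B t, ∀ r : ℤ, (Y₀ : ℤ) ≤ r → r ≤ u.1.2 →
      ∃ a ∈ B t, a.1.2 = r ∧ a.1.1 ≤ u.1.1 ∧ u.1.1 ≤ a.1.1 + (u.1.2 - r) := by
  induction t with
  | zero =>
    intro u hu r hr hru
    exact ⟨u, hu, le_antisymm ((h0 u hu).trans hr) hru, le_rfl, by omega⟩
  | succ t ih =>
    intro u hu r hr hru
    by_cases hut : u ∈ B t
    · obtain ⟨a, ha, h1, h2, h3⟩ := ih u hut r hr hru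
      exact ⟨a, hs t ha, h1, h2, h3⟩
    · by_cases hrr : r = u.1.2
      · exact ⟨u, hu, hrr.symm, le_rfl, by omega⟩
      · obtain ⟨p, hp, hup⟩ := hn t u (mem_sdiff.2 ⟨hu, hut⟩)
        obtain ⟨h1, h2⟩ := hup
        obtain ⟨a, ha, h3, h4, h5⟩ := ih p hp r hr (by omega)
        exact ⟨a, hs t ha, h3, by omega, by omega⟩

lemma urgent_mono (hn : ∀ t, ∀ v ∈ B (t + 1) \ B t, ∃ u ∈ B t, up u v) {t : ℕ}
    {v : EighthPlane} (h : Urgent H (t + 1) (B (t + 1)) v) : Urgent H t (B t) v := by
  obtain ⟨u, hu, h1, h2, h3⟩ := h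
  push_cast at h1
  by_cases hut : u ∈ B t
  · exact ⟨u, hut, by omega, h2, h3⟩
  · obtain ⟨p, hp, hup⟩ := hn t u (mem_sdiff.2 ⟨hu, hut⟩)
    obtain ⟨h4, h5⟩ := hup
    exact ⟨p, hp, by omega, by omega, by omega⟩

lemma U2_le (hH : H = D * D + D) (h0 : ∀ v ∈ B 0, v.1.2 ≤ (Y₀ : ℤ))
    (hs : ∀ t, B t ⊆ B (t + 1)) (hn : ∀ t, ∀ v ∈ B (t + 1) \ B t, ∃ u ∈ B t, up u v)
    {t : ℕ} (ht : D * D ≤ t) (hY : Y₀ ≤ t) :
    (U2 H t (B t) (deleted (sig D H) B t)).card ≤
      ((B t).filter fun v => v.1.2 = (t : ℤ)).card := by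
  classical
  refine card_le_card_of_forall_subsingleton
    (fun v a : EighthPlane => a.1.1 ≤ v.1.1 ∧ v.1.1 ≤ a.1.1 + ((H : ℤ) - t)) ?_ ?_
  · intro v hv
    obtain ⟨hv1, u, hu, h1, h2, h3⟩ := mem_filter.1 hv
    obtain ⟨a, ha, h4, h5, h6⟩ := ancestor h0 hs hn t u hu t (by exact_mod_cast hY) h1
    exact ⟨a, mem_filter.2 ⟨ha, h4⟩, by omega, by omega⟩
  · intro a _ v hv w hw
    have key : ∀ v ∈ U2 H t (B t) (deleted (sig D H) B t), ((D : ℤ) + 1) ∣ v.1.1 := by
      intro v hv
      by_contra hcon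
      have h1 : v ∈ U1 D H (deleted (sig D H) B t) :=
        mem_filter.2 ⟨(mem_filter.1 hv).1, hcon⟩
      rw [U1_empty hH ht] at h1
      exact notMem_empty _ h1
    obtain ⟨hv1, hv2, hv3⟩ := hv
    obtain ⟨hw1, hw2, hw3⟩ := hw
    obtain ⟨i, hi⟩ := key v hv1
    obtain ⟨j, hj⟩ := key w hw1
    have hHt : (H : ℤ) - t ≤ D := by
      have : (H : ℤ) = D * D + D := by rw [hH]; push_cast; ring
      have h2 : ((D * D : ℕ) : ℤ) ≤ t := by exact_mod_cast ht
      push_cast at h2
      omega
    have hij : i = j := by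
      by_contra hne
      rcases lt_or_gt_of_ne hne with h | h
      · have h1 : ((D : ℤ) + 1) * (i + 1) ≤ ((D : ℤ) + 1) * j :=
          mul_le_mul_of_nonneg_left (by omega) (by positivity)
        rw [mul_add, mul_one] at h1
        omega
      · have h1 : ((D : ℤ) + 1) * (j + 1) ≤ ((D : ℤ) + 1) * i :=
          mul_le_mul_of_nonneg_left (by omega) (by positivity)
        rw [mul_add, mul_one] at h1
        omega
    apply Subtype.ext
    apply Prod.ext
    · rw [hi, hj, hij]
    · have e1 := mem_row.1 (mem_sdiff.1 (mem_filter.1 hv1).1).1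
      have e2 := mem_row.1 (mem_sdiff.1 (mem_filter.1 hw1).1).1
      rw [e1, e2]

lemma U2_step (hH : H = D * D + D)
    (hn : ∀ t, ∀ v ∈ B (t + 1) \ B t, ∃ u ∈ B t, up u v) {t : ℕ} (ht : D * D ≤ t) :
    (U2 H (t + 1) (B (t + 1)) (deleted (sig D H) B (t + 1))).card ≤
      (U2 H t (B t) (deleted (sig D H) B t)).card - 1 := by
  classical
  set del := deleted (sig D H) B t with hdel
  have hsub : U2 H (t + 1) (B (t + 1)) (deleted (sig D H) B (t + 1)) ⊆ U2 H t (B t) del := by
    intro v hv
    obtain ⟨h1, h2⟩ := mem_filter.1 hv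
    rw [sdiff_succ] at h1
    exact mem_filter.2 ⟨(mem_sdiff.1 h1).1, urgent_mono hn h2⟩
  by_cases hne : (U2 H t (B t) del).Nonempty
  · have hne' : (row H \ del).Nonempty := hne.imp fun v hv => (mem_filter.1 hv).1
    have hU1 : ¬ (U1 D H del).Nonempty := by
      rw [hdel, U1_empty hH ht]
      exact not_nonempty_empty
    obtain ⟨v, -, hsv, -, h1⟩ := (sig_spec D H t (fun i => B i) del).1 hne'
    have hv : v ∈ U2 H t (B t) del := h1 hU1 hne
    have hlt : U2 H (t + 1) (B (t + 1)) (deleted (sig D H) B (t + 1)) ⊆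
        (U2 H t (B t) del).erase v := by
      intro w hw
      refine mem_erase.2 ⟨?_, hsub hw⟩
      rintro rfl
      have h2 := (mem_filter.1 hw).1
      rw [sdiff_succ] at h2
      have := (mem_sdiff.1 h2).2
      rw [← hdel, hsv] at this
      exact this (mem_singleton_self _)
    have h3 := card_le_card hlt
    rwa [card_erase_of_mem hv] at h3
  · have h0 : U2 H t (B t) del = ∅ := not_nonempty_iff_eq_empty.1 hne
    rw [h0] at hsub
    rw [subset_empty.1 hsub]
    simp

lemma card_born {G : ℕ}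
    (hc : ∀ t, ((B (t + 1) \ B t).card : ℕ∞) ≤ g (t + 1)) {b : ℕ}
    (hg : ∀ t ≤ b, g t ≤ (G : ℕ∞)) {a : ℕ} (hab : a ≤ b) : (B b \ B a).card ≤ (b - a) * G := by
  classical
  induction b, hab using Nat.le_induction with
  | base => simp
  | succ b hab ih =>
    have h1 : (B (b + 1) \ B a) ⊆ (B (b + 1) \ B b) ∪ (B b \ B a) := by
      intro v hv
      simp only [Finset.mem_sdiff, Finset.mem_union] at hv ⊢
      tauto
    have h2 : (B (b + 1) \ B b).card ≤ G := by
      have := (hc b).trans (hg (b + 1) le_rfl)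
      exact_mod_cast this
    have h3 := ih fun t ht => hg t (by omega)
    have h4 := (card_le_card h1).trans (card_union_le _ _)
    have h5 : b + 1 - a = (b - a) + 1 := by omega
    rw [h5, Nat.add_mul, one_mul]
    omega

lemma rows_lt {M G : ℕ} (hH : H = D * D + D) (hM : 0 < M) (hMD : M + Y₀ ≤ D)
    (hT : Y₀ < D * D) (hG : (M + Y₀) * G < M * (D - M - Y₀ + 1))
    (h0 : ∀ v ∈ B 0, v.1.2 ≤ (Y₀ : ℤ)) (hs : ∀ t, B t ⊆ B (t + 1))
    (hc : ∀ t, ((B (t + 1) \ B t).card : ℕ∞) ≤ g (t + 1))
    (hn : ∀ t, ∀ v ∈ B (t + 1) \ B t, v ∉ deleted (sig D H) B (t + 1) ∧ ∃ u ∈ B t, up u v)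
    (hg : ∀ t ≤ D * D + M, g t ≤ (G : ℕ∞)) : ∀ t, ∀ v ∈ B t, v.1.2 < (H : ℤ) := by
  classical
  have hn' : ∀ t, ∀ v ∈ B (t + 1) \ B t, ∃ u ∈ B t, up u v := fun t v hv => (hn t v hv).2
  have hmono : Monotone B := monotone_nat_of_le_succ hs
  have hrow := row_le h0 hn'
  obtain ⟨m, hm, hmK⟩ : ∃ m < M,
      ((B (D * D + m)).filter fun v => v.1.2 = ((D * D + m : ℕ) : ℤ)).card ≤ D - M - Y₀ := by
    by_contra hcon
    push Not at hcon
    have h1 : M * (D - M - Y₀ + 1) ≤ ∑ m ∈ range M,
        ((B (D * D + m)).filter fun v => v.1.2 = ((D * D + m : ℕ) : ℤ)).card := by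
      have := Finset.card_nsmul_le_sum (range M)
        (fun m => ((B (D * D + m)).filter fun v => v.1.2 = ((D * D + m : ℕ) : ℤ)).card)
        (D - M - Y₀ + 1) (fun m hm => hcon m (mem_range.1 hm))
      simpa using this
    have h2 : ∑ m ∈ range M,
        ((B (D * D + m)).filter fun v => v.1.2 = ((D * D + m : ℕ) : ℤ)).card ≤
        (B (D * D + M - 1) \ B (D * D - Y₀ - 1)).card := by
      rw [← card_biUnion]
      · apply card_le_card
        intro v hv
        obtain ⟨m, hm, hv⟩ := mem_biUnion.1 hv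
        obtain ⟨hv1, hv2⟩ := mem_filter.1 hv
        have hm' := mem_range.1 hm
        refine Finset.mem_sdiff.2 ⟨hmono (by omega : D * D + m ≤ D * D + M - 1) hv1, ?_⟩
        intro hv3
        have h3 := hrow _ v hv3
        rw [hv2] at h3
        have h4 : ((D * D - Y₀ - 1 : ℕ) : ℤ) = ((D * D : ℕ) : ℤ) - Y₀ - 1 := by omega
        rw [h4] at h3
        push_cast at h3
        omega
      · intro i _ j _ hij
        refine disjoint_left.2 fun v hv hv' => hij ?_
        have h3 := (mem_filter.1 hv).2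
        have h4 := (mem_filter.1 hv').2
        rw [h3] at h4
        have h5 : D * D + i = D * D + j := by exact_mod_cast h4
        omega
    have h3 := card_born (B := B) (g := g) (G := G) hc (b := D * D + M - 1)
      (fun t ht => hg t (by omega)) (a := D * D - Y₀ - 1) (by omega)
    have h4 : D * D + M - 1 - (D * D - Y₀ - 1) = M + Y₀ := by omega
    rw [h4] at h3
    omega
  have hU : ∀ j, (U2 H (D * D + m + j) (B (D * D + m + j))
      (deleted (sig D H) B (D * D + m + j))).card ≤ D - M - Y₀ - j := by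
    intro j
    induction j with
    | zero =>
      have h1 := U2_le hH h0 hs hn' (t := D * D + m) (by omega) (by omega)
      simpa using h1.trans hmK
    | succ j ih =>
      have h1 := U2_step (B := B) hH hn' (t := D * D + m + j) (by omega)
      have h2 : D * D + m + (j + 1) = D * D + m + j + 1 := by ring
      rw [h2]
      omega
  have hU0 : ∀ t, D * D + m + (D - M - Y₀) ≤ t →
      U2 H t (B t) (deleted (sig D H) B t) = ∅ := by
    intro t ht
    have h1 := hU (t - (D * D + m))
    have h2 : D * D + m + (t - (D * D + m)) = t := by omega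
    rw [h2] at h1
    exact card_eq_zero.1 (by omega)
  intro t
  induction t with
  | zero =>
    intro v hv
    have := h0 v hv
    have h1 : (Y₀ : ℤ) < H := by
      have : Y₀ < H := by omega
      exact_mod_cast this
    omega
  | succ t ih =>
    intro v hv
    by_cases hlt : t + 1 ≤ D * D + m + (D - M - Y₀)
    · have h1 := hrow (t + 1) v hv
      have h2 : Y₀ + (t + 1) < H := by omega
      have h3 : ((Y₀ + (t + 1) : ℕ) : ℤ) < H := by exact_mod_cast h2
      push_cast at h1 h3
      omega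
    · by_cases hvt : v ∈ B t
      · exact ih v hvt
      · obtain ⟨hdel, u, hu, hup⟩ := hn t v (Finset.mem_sdiff.2 ⟨hv, hvt⟩)
        obtain ⟨h1, h2⟩ := hup
        have h3 := ih u hu
        by_contra hcon
        have h4 : v.1.2 = (H : ℤ) := by omega
        have hvrow : v ∈ row H := mem_row.2 h4
        by_cases htH : t + 1 ≤ H
        · have h5 : v ∈ U2 H t (B t) (deleted (sig D H) B t) := by
            refine mem_filter.2 ⟨Finset.mem_sdiff.2 ⟨hvrow, fun h => hdel ?_⟩, u, hu, ?_, ?_, ?_⟩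
            · rw [deleted_succ]
              exact mem_union_left _ h
            · omega
            · omega
            · omega
          rw [hU0 t (by omega)] at h5
          exact notMem_empty _ h5
        · have h5 : (row H \ deleted (sig D H) B (t + 1)).card = 0 := by
            rw [card_left]
            omega
          have h6 : v ∈ row H \ deleted (sig D H) B (t + 1) :=
            Finset.mem_sdiff.2 ⟨hvrow, hdel⟩
          rw [card_eq_zero.1 h5] at h6
          exact notMem_empty _ h6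

end Play

/-- a monotone sequence of subsets of a finite set is eventually constant -/
lemma eventually_const {V : Type} {B : ℕ → Finset V} (hs : ∀ t, B t ⊆ B (t + 1))
    {R : Finset V} (hR : ∀ t, B t ⊆ R) : ∃ T, ∀ t, T ≤ t → B t = B T := by
  have hmono : Monotone B := monotone_nat_of_le_succ hs
  have hbd : ∀ t, (B t).card ≤ R.card := fun t => card_le_card (hR t)
  obtain ⟨T, hT⟩ : ∃ T, ∀ t, (B t).card ≤ (B T).card := by
    have hne : (Set.range fun t => (B t).card).Nonempty := ⟨_, 0, rfl⟩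
    have hba : BddAbove (Set.range fun t => (B t).card) :=
      ⟨R.card, by rintro _ ⟨t, rfl⟩; exact hbd t⟩
    obtain ⟨T, hT⟩ := Nat.sSup_mem hne hba
    exact ⟨T, fun t => by
      have := le_csSup hba ⟨t, rfl⟩
      simp only at hT
      rw [hT]
      exact this⟩
  exact ⟨T, fun t ht => (eq_of_subset_of_card_le (hmono ht) (hT t)).symm⟩

lemma quota_one (t : ℕ) : quota 1 t = 1 := by
  unfold quota
  have h1 : ⌊((t : ℝ) + 1) * 1⌋₊ = t + 1 := by
    rw [mul_one]
    exact_mod_cast Nat.floor_natCast (R := ℝ) (t + 1)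
  have h2 : ⌊(t : ℝ) * 1⌋₊ = t := by
    rw [mul_one]
    exact Nat.floor_natCast (R := ℝ) t
  rw [h1, h2]
  omega

/-- Container wins with `q = 1`, from parameters -/
theorem wins_of_params {D M Y₀ G : ℕ} (hM : 0 < M) (hMD : M + Y₀ ≤ D)
    (hT : Y₀ < D * D) (hG : (M + Y₀) * G < M * (D - M - Y₀ + 1)) {g : ℕ → ℕ∞}
    (hg : ∀ t ≤ D * D + M, g t ≤ (G : ℕ∞)) {B₀ : Finset EighthPlane}
    (h0 : ∀ v ∈ B₀, v.1.2 ≤ (Y₀ : ℤ)) : ContainerWins up 1 g B₀ := by
  classical
  refine ⟨sig D (D * D + D), fun B hB0 hB => ?_⟩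
  have hs : ∀ t, B t ⊆ B (t + 1) := fun t => (hB t).1
  have hc := fun t => (hB t).2.1
  have hn := fun t => (hB t).2.2
  have hlt := rows_lt (H := D * D + D) rfl hM hMD hT hG (by rw [hB0]; exact h0) hs hc hn hg
  constructor
  · intro t
    rw [quota_one]
    by_cases hne : (row (D * D + D) \ deleted (sig D (D * D + D)) B t).Nonempty
    · obtain ⟨v, hv, hsv, -⟩ := (sig_spec D (D * D + D) t (fun i => B i)
        (deleted (sig D (D * D + D)) B t)).1 hne
      rw [hsv]
      refine ⟨by simp, disjoint_singleton_left.2 fun hvB => ?_⟩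
      have h1 := hlt t v hvB
      have h2 := mem_row.1 (Finset.mem_sdiff.1 hv).1
      omega
    · rw [(sig_spec D (D * D + D) t (fun i => B i)
        (deleted (sig D (D * D + D)) B t)).2 hne]
      simp
  · refine eventually_const hs (R := (range (D * D + D)).biUnion row) fun t v hv => ?_
    have h1 := hlt t v hv
    have h2 := v.2.1
    have h3 := v.2.2
    refine mem_biUnion.2 ⟨v.1.2.toNat, mem_range.2 ?_, mem_row.2 ?_⟩
    · omega
    · omega

/-- Container wins the game on the eighth plane with `q = 1` if, for infinitely many `T`, the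
function `g` is at most `c √T` on `[0, T]`, where `c < 1`. -/
theorem one_mem {g : ℕ → ℕ} {c : ℝ} (hc : c < 1)
    (hg : ∃ᶠ T : ℕ in atTop, ∀ t ≤ T, (g t : ℝ) ≤ c * √(T : ℝ)) :
    (1 : ℝ) ∈ winSet up (fun t => (g t : ℕ∞)) := by
  classical
  refine ⟨one_pos, fun B₀ => ?_⟩
  obtain ⟨Y₀, hY⟩ : ∃ Y₀ : ℕ, ∀ v ∈ B₀, v.1.2 ≤ (Y₀ : ℤ) := by
    refine ⟨B₀.sup fun v => v.1.2.toNat, fun v hv => ?_⟩
    have h1 : v.1.2.toNat ≤ B₀.sup fun v => v.1.2.toNat :=
      Finset.le_sup (f := fun v : EighthPlane => v.1.2.toNat) hv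
    omega
  set c' : ℝ := max c 0 with hc'
  have hc0 : 0 ≤ c' := le_max_right _ _
  have hc1 : c' < 1 := max_lt hc one_pos
  obtain ⟨M, hM⟩ : ∃ M : ℕ, (Y₀ : ℝ) * c' / (1 - c') < M := exists_nat_gt _
  have h1c : 0 < 1 - c' := by linarith
  have hM1 : ((M : ℝ) + Y₀) * c' < M := by
    rw [div_lt_iff₀ h1c] at hM
    nlinarith
  have hM0 : 0 < M := by
    rcases Nat.eq_zero_or_pos M with h | h
    · exfalso
      rw [h] at hM1
      push_cast at hM1
      have : 0 ≤ ((0 : ℝ) + Y₀) * c' := by positivity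
      linarith
    · exact h
  set δ : ℝ := M - ((M : ℝ) + Y₀) * c' with hδ
  have hδ0 : 0 < δ := by linarith
  obtain ⟨K, hK⟩ : ∃ K : ℕ, (((M : ℝ) + Y₀) * (1 + M) + M * (M + Y₀)) / δ < K := exists_nat_gt _
  obtain ⟨T, hgT, hT⟩ :=
    (hg.and_eventually (eventually_ge_atTop ((K + M + Y₀ + 2) ^ 2 + M))).exists
  set D := Nat.sqrt (T - M) with hD
  have hDK : K + M + Y₀ + 2 ≤ D := by
    rw [hD, Nat.le_sqrt']
    omega
  have hD1 : D * D ≤ T - M := Nat.sqrt_le _
  have hD2 : T - M < (D + 1) * (D + 1) := Nat.lt_succ_sqrt _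
  have hTD : √(T : ℝ) ≤ D + 1 + M := by
    rw [Real.sqrt_le_left (by positivity)]
    have h1 : T ≤ (D + 1) * (D + 1) + M := by omega
    have h2 : (T : ℝ) ≤ (D + 1) * (D + 1) + M := by exact_mod_cast h1
    have h3 : (0 : ℝ) ≤ D := Nat.cast_nonneg _
    have h4 : (1 : ℝ) ≤ M := by exact_mod_cast hM0
    nlinarith
  set G := ⌊c' * √(T : ℝ)⌋₊ with hG
  have hGle : (G : ℝ) ≤ c' * (D + 1 + M) :=
    (Nat.floor_le (by positivity)).trans (mul_le_mul_of_nonneg_left hTD hc0)
  refine wins_of_params (D := D) (M := M) (Y₀ := Y₀) (G := G) hM0 (by omega) ?_ ?_ ?_ hY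
  · have : D * 1 ≤ D * D := Nat.mul_le_mul_left _ (by omega)
    omega
  · have h1 : (((M + Y₀) * G : ℕ) : ℝ) < ((M * (D - M - Y₀ + 1) : ℕ) : ℝ) := by
      have h2 : ((D - M - Y₀ + 1 : ℕ) : ℝ) = (D : ℝ) - M - Y₀ + 1 := by
        have : D - M - Y₀ + 1 + (M + Y₀) = D + 1 := by omega
        have h3 : ((D - M - Y₀ + 1 : ℕ) : ℝ) + (M + Y₀) = D + 1 := by exact_mod_cast this
        linarith
      rw [Nat.cast_mul, Nat.cast_mul, h2, Nat.cast_add]
      have h3 : (K : ℝ) ≤ D := by
        have : K ≤ D := by omega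
        exact_mod_cast this
      have h4 : ((M : ℝ) + Y₀) * (1 + M) + M * (M + Y₀) < δ * D := by
        rw [div_lt_iff₀ hδ0] at hK
        nlinarith
      have h5 : ((M : ℝ) + Y₀) * G ≤ (M + Y₀) * (c' * (D + 1 + M)) :=
        mul_le_mul_of_nonneg_left hGle (by positivity)
      have h6 : ((M : ℝ) + Y₀) * (c' * (1 + M)) ≤ (M + Y₀) * (1 + M) := by
        have : ((M : ℝ) + Y₀) * (1 + M) * c' ≤ (M + Y₀) * (1 + M) * 1 :=
          mul_le_mul_of_nonneg_left hc1.le (by positivity)
        nlinarith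
      have h7 : (0 : ℝ) ≤ M := Nat.cast_nonneg _
      nlinarith
    exact_mod_cast h1
  · intro t ht
    have h1 : (g t : ℝ) ≤ c * √(T : ℝ) := hgT t (by omega)
    have h2 : (g t : ℝ) ≤ c' * √(T : ℝ) :=
      h1.trans (mul_le_mul_of_nonneg_right (le_max_left _ _) (Real.sqrt_nonneg _))
    have h3 : g t ≤ G := Nat.le_floor h2
    exact_mod_cast h3

/-! ### Spreader wins without restriction -/

/-- a play in which the spread is a function of the occupied and of the deleted vertices -/
lemma exists_play {V : Type} [DecidableEq V] (σ : Strategy V) (B₀ : Finset V)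
    (F : Finset V → Finset V → Finset V) :
    ∃ B : ℕ → Finset V, B 0 = B₀ ∧ ∀ t, B (t + 1) = F (B t) (deleted σ B (t + 1)) := by
  classical
  let st : ℕ → (ℕ → Finset V) × Finset V := fun n => Nat.rec (fun _ => B₀, ∅)
    (fun t p => (Function.update p.1 (t + 1) (F (p.1 t) (p.2 ∪ σ t (fun i => p.1 i) p.2)),
      p.2 ∪ σ t (fun i => p.1 i) p.2)) n
  have hst : ∀ t, st (t + 1) = (Function.update (st t).1 (t + 1)
      (F ((st t).1 t) ((st t).2 ∪ σ t (fun i => (st t).1 i) (st t).2)),
      (st t).2 ∪ σ t (fun i => (st t).1 i) (st t).2) := fun t => rfl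
  have hcoh : ∀ t, ∀ i ≤ t, (st t).1 i = (st i).1 i := by
    intro t
    induction t with
    | zero =>
      intro i hi
      rw [Nat.le_zero.1 hi]
    | succ t ih =>
      intro i hi
      by_cases h : i = t + 1
      · rw [h]
      · rw [hst]
        simp only [Function.update_of_ne h]
        exact ih i (by omega)
  have hfun : ∀ t, (fun i : Fin (t + 1) => (st t).1 i) = fun i : Fin (t + 1) => (st i).1 i :=
    fun t => funext fun i => hcoh t i (by have := i.2; omega)
  have hdel : ∀ t, deleted σ (fun t => (st t).1 t) t = (st t).2 := by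
    intro t
    induction t with
    | zero => rfl
    | succ t ih =>
      rw [hst]
      show deleted σ (fun t => (st t).1 t) t ∪ σ t _ (deleted σ (fun t => (st t).1 t) t) = _
      rw [ih]
      simp only
      rw [hfun]
  refine ⟨fun t => (st t).1 t, rfl, fun t => ?_⟩
  rw [hdel]
  show (st (t + 1)).1 (t + 1) = F ((st t).1 t) (st (t + 1)).2
  rw [hst]
  simp only [Function.update_self]

/-- the end points of the two edges from `u` -/
def up0 (u : EighthPlane) : EighthPlane :=
  ⟨(u.1.1, u.1.2 + 1), by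
    have h0 := u.2.1
    have h1 := u.2.2
    exact ⟨h0, by show u.1.1 ≤ u.1.2 + 1; omega⟩⟩

/-- the end points of the two edges from `u` -/
def up1 (u : EighthPlane) : EighthPlane :=
  ⟨(u.1.1 + 1, u.1.2 + 1), by
    have h0 := u.2.1
    have h1 := u.2.2
    exact ⟨by show 0 ≤ u.1.1 + 1; omega, by show u.1.1 + 1 ≤ u.1.2 + 1; omega⟩⟩

/-- unrestricted spread -/
def spread (b d : Finset EighthPlane) : Finset EighthPlane :=
  b ∪ ((b.image up0 ∪ b.image up1) \ d)

lemma card_images {R : Finset EighthPlane} (hR : R.Nonempty) :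
    R.card + 1 ≤ (R.image up0 ∪ R.image up1).card := by
  classical
  obtain ⟨u, hu, hmin⟩ := exists_min_image R (fun v : EighthPlane => v.1.1) hR
  have h1 : up0 u ∉ R.image up1 := by
    intro h
    obtain ⟨w, hw, hwu⟩ := mem_image.1 h
    have h2 : w.1.1 + 1 = u.1.1 := congrArg (fun p : EighthPlane => p.1.1) hwu
    have := hmin w hw
    omega
  have h2 : insert (up0 u) (R.image up1) ⊆ R.image up0 ∪ R.image up1 := by
    intro v hv
    rcases mem_insert.1 hv with h | h
    · rw [h]
      exact mem_union_left _ (mem_image_of_mem _ hu)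
    · exact mem_union_right _ h
  have h3 := card_le_card h2
  rw [card_insert_of_notMem h1, card_image_of_injective] at h3
  · exact h3
  · intro v w hvw
    have e1 : v.1.1 + 1 = w.1.1 + 1 := congrArg (fun p : EighthPlane => p.1.1) hvw
    have e2 : v.1.2 + 1 = w.1.2 + 1 := congrArg (fun p : EighthPlane => p.1.2) hvw
    exact Subtype.ext (Prod.ext (by omega) (by omega))

/-- The Firefighter problem on the eighth plane: `1` does not lie in `q(E, ∞)`. -/
theorem one_notMem : (1 : ℝ) ∉ winSet up (fun _ => ⊤) := by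
  classical
  rintro ⟨-, hwin⟩
  obtain ⟨σ, hσ⟩ := hwin {(⟨(0, 0), le_rfl, le_rfl⟩ : EighthPlane)}
  obtain ⟨B, hB0, hB⟩ := exists_play σ {(⟨(0, 0), le_rfl, le_rfl⟩ : EighthPlane)} spread
  have hs : ∀ t, B t ⊆ B (t + 1) := fun t => by
    rw [hB]
    exact subset_union_left
  have hnew : ∀ t, ∀ v ∈ B (t + 1) \ B t, v ∉ deleted σ B (t + 1) ∧ ∃ u ∈ B t, up u v := by
    intro t v hv
    obtain ⟨h1, h2⟩ := Finset.mem_sdiff.1 hv
    rw [hB t] at h1
    rcases mem_union.1 h1 with h | h
    · exact absurd h h2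
    · obtain ⟨h3, h4⟩ := Finset.mem_sdiff.1 h
      refine ⟨h4, ?_⟩
      rcases mem_union.1 h3 with h | h
      · obtain ⟨u, hu, rfl⟩ := mem_image.1 h
        exact ⟨u, hu, rfl, Or.inl rfl⟩
      · obtain ⟨u, hu, rfl⟩ := mem_image.1 h
        exact ⟨u, hu, rfl, Or.inr rfl⟩
  obtain ⟨hleg, T, hT⟩ := hσ B hB0 fun t => ⟨hs t, le_top, hnew t⟩
  have hdel : ∀ t, (deleted σ B t).card ≤ t := by
    intro t
    induction t with
    | zero => simp [deleted]
    | succ t ih =>
      have h1 := (hleg t).1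
      rw [quota_one] at h1
      have h2 := card_union_le (deleted σ B t) (σ t (fun i => B i) (deleted σ B t))
      show (deleted σ B t ∪ σ t (fun i => B i) (deleted σ B t)).card ≤ t + 1
      omega
  have key : ∀ t : ℕ, t + 1 ≤ ((B t).filter fun v => v.1.2 = (t : ℤ)).card +
      ((deleted σ B t).filter fun v => v.1.2 ≤ (t : ℤ)).card := by
    intro t
    induction t with
    | zero =>
      rw [hB0]
      have h1 : (⟨(0, 0), le_rfl, le_rfl⟩ : EighthPlane) ∈
          (({(⟨(0, 0), le_rfl, le_rfl⟩ : EighthPlane)} : Finset EighthPlane).filter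
            fun v => v.1.2 = ((0 : ℕ) : ℤ)) :=
        mem_filter.2 ⟨mem_singleton_self _, rfl⟩
      have h2 := card_pos.2 ⟨_, h1⟩
      omega
    | succ t ih =>
      set R := (B t).filter fun v => v.1.2 = (t : ℤ) with hR
      have hle : ((deleted σ B t).filter fun v => v.1.2 ≤ (t : ℤ)).card ≤ t :=
        (card_filter_le _ _).trans (hdel t)
      have hRne : R.Nonempty := card_pos.1 (by omega)
      have h1 := card_images hRne
      have h2 : R.image up0 ∪ R.image up1 ⊆
          ((B (t + 1)).filter fun v => v.1.2 = ((t + 1 : ℕ) : ℤ)) ∪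
            ((deleted σ B (t + 1)).filter fun v => v.1.2 = ((t + 1 : ℕ) : ℤ)) := by
        intro v hv
        have hrow : v.1.2 = ((t + 1 : ℕ) : ℤ) ∧ v ∈ (B t).image up0 ∪ (B t).image up1 := by
          rcases mem_union.1 hv with h | h
          · obtain ⟨u, hu, rfl⟩ := mem_image.1 h
            obtain ⟨hu1, hu2⟩ := mem_filter.1 hu
            refine ⟨?_, mem_union_left _ (mem_image_of_mem _ hu1)⟩
            show u.1.2 + 1 = ((t + 1 : ℕ) : ℤ)
            rw [hu2]
            push_cast
            ring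
          · obtain ⟨u, hu, rfl⟩ := mem_image.1 h
            obtain ⟨hu1, hu2⟩ := mem_filter.1 hu
            refine ⟨?_, mem_union_right _ (mem_image_of_mem _ hu1)⟩
            show u.1.2 + 1 = ((t + 1 : ℕ) : ℤ)
            rw [hu2]
            push_cast
            ring
        by_cases hd : v ∈ deleted σ B (t + 1)
        · exact mem_union_right _ (mem_filter.2 ⟨hd, hrow.1⟩)
        · refine mem_union_left _ (mem_filter.2 ⟨?_, hrow.1⟩)
          rw [hB]
          exact mem_union_right _ (Finset.mem_sdiff.2 ⟨hrow.2, hd⟩)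
      have h3 := (card_le_card h2).trans (card_union_le _ _)
      have h4 : ((deleted σ B t).filter fun v => v.1.2 ≤ (t : ℤ)).card +
          ((deleted σ B (t + 1)).filter fun v => v.1.2 = ((t + 1 : ℕ) : ℤ)).card ≤
          ((deleted σ B (t + 1)).filter fun v => v.1.2 ≤ ((t + 1 : ℕ) : ℤ)).card := by
        rw [← card_union_of_disjoint]
        · apply card_le_card
          intro v hv
          rcases mem_union.1 hv with h | h
          · obtain ⟨h5, h6⟩ := mem_filter.1 h
            refine mem_filter.2 ⟨?_, ?_⟩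
            · show v ∈ deleted σ B t ∪ σ t (fun i => B i) (deleted σ B t)
              exact mem_union_left _ h5
            · push_cast
              omega
          · obtain ⟨h5, h6⟩ := mem_filter.1 h
            exact mem_filter.2 ⟨h5, h6.le⟩
        · refine disjoint_left.2 fun v hv hv' => ?_
          have h5 := (mem_filter.1 hv).2
          have h6 := (mem_filter.1 hv').2
          push_cast at h6
          omega
      omega
  have hrow := row_le (Y₀ := 0) (B := B) (by
    rw [hB0]
    intro v hv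
    rw [mem_singleton.1 hv]
    exact le_rfl) (fun t v hv => (hnew t v hv).2)
  have h1 := key (T + 1)
  have h2 : ((deleted σ B (T + 1)).filter fun v => v.1.2 ≤ ((T + 1 : ℕ) : ℤ)).card ≤ T + 1 :=
    (card_filter_le _ _).trans (hdel _)
  obtain ⟨v, hv⟩ : ((B (T + 1)).filter fun v => v.1.2 = ((T + 1 : ℕ) : ℤ)).Nonempty :=
    card_pos.1 (by omega)
  obtain ⟨h3, h4⟩ := mem_filter.1 hv
  rw [hT (T + 1) (by omega)] at h3
  have h5 := hrow T v h3
  push_cast at h4 h5
  omega

/-- `q(G, g')` is contained in `q(G, g)` for `g ≤ g'` -/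
lemma winSet_anti {V : Type} [DecidableEq V] (step : V → V → Prop) (g : ℕ → ℕ∞) :
    winSet step (fun _ => ⊤) ⊆ winSet step g := by
  rintro q ⟨hq, h⟩
  refine ⟨hq, fun B₀ => ?_⟩
  obtain ⟨σ, hσ⟩ := h B₀
  exact ⟨σ, fun B hB0 hB => hσ B hB0 fun t => ⟨(hB t).1, le_top, (hB t).2.2⟩⟩

/-- **MP_24b7a7_co**, `G = E`: if for infinitely many `T` the function `g` is at most `c √T` on
`[0, T]`, where `c < 1`, then `1 ∈ q(E, g)` and `1 ∉ q(E, ∞)`, so `q(E, ∞)` is a proper subset of
`q(E, g)`. -/
theorem result (g : ℕ → ℕ) (c : ℝ) (hc : c < 1)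
    (hg : ∃ᶠ T : ℕ in atTop, ∀ t ≤ T, (g t : ℝ) ≤ c * √(T : ℝ)) :
    (1 : ℝ) ∈ winSet up (fun t => (g t : ℕ∞)) ∧ (1 : ℝ) ∉ winSet up (fun _ => ⊤) ∧
      winSet up (fun _ => ⊤) ⊂ winSet up (fun t => (g t : ℕ∞)) :=
  ⟨one_mem hc hg, one_notMem,
    Set.ssubset_iff_of_subset (winSet_anti _ _) |>.2 ⟨1, one_mem hc hg, one_notMem⟩⟩

end Pool.Agent.Results.MP_24b7a7_co.BelowSquareRoot
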