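import Pool.Agent.Lib.MP_24b7a7_co.Response

/-!
MP_24b7a7_co: the `(G, q, g)` containment game, and the eighth plane.

If `g(t) ≥ 216 t^{2/3}` for all `t ≥ 1`, then `q(E, g) = q(E, ∞) = (1, ∞)`.
-/

set_option autoImplicit false

namespace Pool.Agent.Results.MP_24b7a7_co.TwoThirds

open Finset Pool.Agent.Lib.MP_24b7a7_co

section Game

variable {V : Type} [DecidableEq V]

/-- The number of vertices which Container may delete at turn `t + 1`. -/
noncomputable def quota (q : ℝ) (t : ℕ) : ℕ := ⌊((t : ℝ) + 1) * q⌋₊ - ⌊(t : ℝ) * q⌋₊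

/-- A strategy of Container: for turn `t + 1` it is given the occupied sets `B 0, …, B t` and the
set of the vertices deleted so far, and it answers with a set of vertices to delete. -/
abbrev Strategy (V : Type) := (t : ℕ) → (Fin (t + 1) → Finset V) → Finset V → Finset V

/-- The set of the vertices deleted in the first `t` turns, if Container follows `σ` and the
occupied sets are `B 0, B 1, …`. -/
def deleted (σ : Strategy V) (B : ℕ → Finset V) : ℕ → Finset V
  | 0 => ∅
  | t + 1 => deleted σ B t ∪ σ t (fun i => B i) (deleted σ B t)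

/-- At every turn Container deletes at most `quota` vertices, none of them occupied. -/
def ContainerLegal (q : ℝ) (σ : Strategy V) (B : ℕ → Finset V) : Prop :=
  ∀ t, (σ t (fun i => B i) (deleted σ B t)).card ≤ quota q t ∧
    Disjoint (σ t (fun i => B i) (deleted σ B t)) (B t)

/-- At every turn `t + 1` Spreader newly occupies at most `g (t + 1)` vertices, each of which is
not deleted and is reached by one step from a vertex of `B t`. -/
def SpreaderLegal (step : V → V → Prop) (g : ℕ → ℕ∞) (σ : Strategy V) (B : ℕ → Finset V) : Prop :=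
  ∀ t, B t ⊆ B (t + 1) ∧ ((B (t + 1) \ B t).card : ℕ∞) ≤ g (t + 1) ∧
    ∀ v ∈ B (t + 1) \ B t, v ∉ deleted σ B (t + 1) ∧ ∃ u ∈ B t, step u v

/-- Container has a strategy that wins the game from the occupied set `B₀`: against every play of
Spreader it is legal, and from some turn on no new vertex is occupied. -/
def ContainerWins (step : V → V → Prop) (q : ℝ) (g : ℕ → ℕ∞) (B₀ : Finset V) : Prop :=
  ∃ σ : Strategy V, ∀ B : ℕ → Finset V, B 0 = B₀ → SpreaderLegal step g σ B →
    ContainerLegal q σ B ∧ ∃ T, ∀ t, T ≤ t → B t = B T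

/-- `q(G, g)`: the set of all `q > 0` for which Container wins from every finite set. -/
def winSet (step : V → V → Prop) (g : ℕ → ℕ∞) : Set ℝ :=
  {q | 0 < q ∧ ∀ B₀ : Finset V, ContainerWins step q g B₀}

end Game

/-- The vertices of the eighth plane. -/
abbrev EighthPlane := {p : ℤ × ℤ // 0 ≤ p.1 ∧ p.1 ≤ p.2}

/-- The edges of the eighth plane, from `(x, y)` to `(x, y + 1)` and to `(x + 1, y + 1)`. -/
def up (u v : EighthPlane) : Prop :=
  v.1.2 = u.1.2 + 1 ∧ (v.1.1 = u.1.1 ∨ v.1.1 = u.1.1 + 1)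

/-! ### Quotas -/

lemma quota_le_one {q : ℝ} (hq : 0 < q) (hq1 : q ≤ 1) (t : ℕ) : quota q t ≤ 1 := by
  have h1 : ⌊((t : ℝ) + 1) * q⌋₊ ≤ ⌊(t : ℝ) * q⌋₊ + 1 := by
    rw [← Nat.floor_add_one (by positivity)]
    refine Nat.floor_le_floor ?_
    nlinarith
  unfold quota
  omega

lemma floor_add_quota {q : ℝ} (hq : 0 < q) (t : ℕ) :
    ⌊(t : ℝ) * q⌋₊ + quota q t = ⌊((t + 1 : ℕ) : ℝ) * q⌋₊ := by
  have h1 : ⌊(t : ℝ) * q⌋₊ ≤ ⌊((t : ℝ) + 1) * q⌋₊ := by
    refine Nat.floor_le_floor ?_
    nlinarith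
  unfold quota
  push_cast
  omega

/-! ### Rows -/

/-- the vertex `(u, y)` -/
def pt (y u : ℕ) : EighthPlane :=
  if h : u ≤ y then ⟨((u : ℤ), (y : ℤ)), Int.natCast_nonneg u, Int.ofNat_le.2 h⟩
  else ⟨(0, 0), le_rfl, le_rfl⟩

/-- a vertex as a pair of natural numbers -/
def vx (v : EighthPlane) : Vx := (v.1.1.toNat, v.1.2.toNat)

lemma vx_pt {y u : ℕ} (h : u ≤ y) : vx (pt y u) = (u, y) := by
  rw [vx, pt, dif_pos h]
  simp

lemma pt_vx (v : EighthPlane) : pt (vx v).2 (vx v).1 = v := by
  have h0 := v.2.1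
  have h1 := v.2.2
  rw [pt, dif_pos (by simp only [vx]; omega)]
  apply Subtype.ext
  apply Prod.ext
  · show ((v.1.1.toNat : ℕ) : ℤ) = v.1.1
    omega
  · show ((v.1.2.toNat : ℕ) : ℤ) = v.1.2
    omega

lemma vx_le (v : EighthPlane) : (vx v).1 ≤ (vx v).2 := by
  have h0 := v.2.1
  have h1 := v.2.2
  simp only [vx]
  omega

lemma vx_inj : Function.Injective vx := fun v w h => by
  rw [← pt_vx v, ← pt_vx w, h]

lemma up_iff {u v : EighthPlane} :
    up u v ↔ (vx v).2 = (vx u).2 + 1 ∧ ((vx v).1 = (vx u).1 ∨ (vx v).1 = (vx u).1 + 1) := by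
  have h0 := v.2.1
  have h1 := v.2.2
  have h2 := u.2.1
  have h3 := u.2.2
  simp only [up, vx]
  omega

/-! ### Container wins if `q > 1` -/

/-- row `H` -/
def row (H : ℕ) : Finset EighthPlane := (range (H + 1)).image (pt H)

lemma mem_row {H : ℕ} {v : EighthPlane} : v ∈ row H ↔ (vx v).2 = H := by
  constructor
  · intro h
    obtain ⟨u, hu, rfl⟩ := mem_image.1 h
    rw [vx_pt (by simpa [Nat.lt_succ_iff] using hu)]
  · intro h
    refine mem_image.2 ⟨(vx v).1, mem_range.2 ?_, ?_⟩
    · have := vx_le v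
      omega
    · rw [← h]
      exact pt_vx v

lemma card_row_le (H : ℕ) : (row H).card ≤ H + 1 := card_image_le.trans (card_range _).le

/-- the strategy of Container: delete row `H` -/
noncomputable def clear (q : ℝ) (H : ℕ) : Strategy EighthPlane := fun t _ del =>
  (exists_subset_card_eq (min_le_right (quota q t) (row H \ del).card)).choose

lemma clear_spec (q : ℝ) (H t : ℕ) (h : Fin (t + 1) → Finset EighthPlane)
    (del : Finset EighthPlane) : clear q H t h del ⊆ row H \ del ∧
      (clear q H t h del).card = min (quota q t) (row H \ del).card :=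
  (exists_subset_card_eq (min_le_right (quota q t) (row H \ del).card)).choose_spec

lemma card_left {q : ℝ} (hq : 0 < q) (H : ℕ) (B : ℕ → Finset EighthPlane) (t : ℕ) :
    (row H \ deleted (clear q H) B t).card ≤ H + 1 - ⌊(t : ℝ) * q⌋₊ := by
  induction t with
  | zero =>
    have := card_row_le H
    simpa [deleted] using this
  | succ t ih =>
    obtain ⟨h1, h2⟩ := clear_spec q H t (fun i => B i) (deleted (clear q H) B t)
    have h3 : row H \ deleted (clear q H) B (t + 1) = (row H \ deleted (clear q H) B t) \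
        clear q H t (fun i => B i) (deleted (clear q H) B t) := by
      show row H \ (deleted (clear q H) B t ∪ _) = _
      rw [sdiff_union_distrib]
      ext v
      simp only [mem_inter, Finset.mem_sdiff]
      tauto
    rw [h3, card_sdiff_of_subset h1, h2]
    have h4 := floor_add_quota hq t
    omega

/-- a monotone sequence of subsets of a finite set is eventually constant -/
lemma eventually_const {V : Type} {B : ℕ → Finset V} (hs : ∀ t, B t ⊆ B (t + 1))
    {R : Finset V} (hR : ∀ t, B t ⊆ R) : ∃ T, ∀ t, T ≤ t → B t = B T := by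
  have hmono : Monotone B := monotone_nat_of_le_succ hs
  have hbd : ∀ t, (B t).card ≤ R.card := fun t => card_le_card (hR t)
  obtain ⟨T, hT⟩ : ∃ T, ∀ t, (B t).card ≤ (B T).card := by
    have hne : (Set.range fun t => (B t).card).Nonempty := ⟨_, 0, rfl⟩
    have hba : BddAbove (Set.range fun t => (B t).card) :=
      ⟨R.card, by rintro _ ⟨t, rfl⟩; exact hbd t⟩
    obtain ⟨T, hT⟩ := Nat.sSup_mem hne hba
    exact ⟨T, fun t => by
      have := le_csSup hba ⟨t, rfl⟩
      simp only at hT
      rw [hT]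
      exact this⟩
  exact ⟨T, fun t ht => (eq_of_subset_of_card_le (hmono ht) (hT t)).symm⟩

theorem container_wins {q : ℝ} (hq : 1 < q) (g : ℕ → ℕ∞) (B₀ : Finset EighthPlane) :
    ContainerWins up q g B₀ := by
  classical
  obtain ⟨Y₀, hY⟩ : ∃ Y₀ : ℕ, ∀ v ∈ B₀, (vx v).2 ≤ Y₀ :=
    ⟨B₀.sup fun v => (vx v).2, fun v hv => le_sup (f := fun v => (vx v).2) hv⟩
  have hq0 : 0 < q := one_pos.trans hq
  obtain ⟨k, hk⟩ : ∃ k : ℕ, ((Y₀ : ℝ) + 1) / (q - 1) < k := exists_nat_gt _
  set H := Y₀ + k with hH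
  have hk1 : (Y₀ : ℝ) + 1 < k * (q - 1) := by
    rwa [div_lt_iff₀ (by linarith)] at hk
  have hfloor : H + 1 ≤ ⌊(k : ℝ) * q⌋₊ := by
    refine Nat.le_floor ?_
    rw [hH]
    push_cast
    nlinarith
  have hk0 : 0 < k := by
    rcases Nat.eq_zero_or_pos k with h | h
    · rw [h] at hk1
      have : (0 : ℝ) ≤ Y₀ := Nat.cast_nonneg _
      push_cast at hk1
      linarith
    · exact h
  refine ⟨clear q H, fun B hB0 hB => ?_⟩
  have hs : ∀ t, B t ⊆ B (t + 1) := fun t => (hB t).1
  have hrow : ∀ t, ∀ v ∈ B t, (vx v).2 ≤ Y₀ + t := by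
    intro t
    induction t with
    | zero =>
      intro v hv
      rw [hB0] at hv
      exact hY v hv
    | succ t ih =>
      intro v hv
      by_cases hvt : v ∈ B t
      · have := ih v hvt
        omega
      · obtain ⟨-, u, hu, huv⟩ := (hB t).2.2 v (Finset.mem_sdiff.2 ⟨hv, hvt⟩)
        have h1 := ih u hu
        have h2 := (up_iff.1 huv).1
        omega
  have hlt : ∀ t, ∀ v ∈ B t, (vx v).2 < H := by
    intro t
    induction t with
    | zero =>
      intro v hv
      have := hrow 0 v hv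
      omega
    | succ t ih =>
      intro v hv
      by_cases hvt : v ∈ B t
      · exact ih v hvt
      · obtain ⟨hdel, u, hu, huv⟩ := (hB t).2.2 v (Finset.mem_sdiff.2 ⟨hv, hvt⟩)
        have h1 := ih u hu
        have h2 := (up_iff.1 huv).1
        by_contra hcon
        have h3 : (vx v).2 = H := by omega
        have h4 := hrow (t + 1) v hv
        have h5 := card_left hq0 H B (t + 1)
        have h6 : ⌊(k : ℝ) * q⌋₊ ≤ ⌊((t + 1 : ℕ) : ℝ) * q⌋₊ := by
          refine Nat.floor_le_floor (mul_le_mul_of_nonneg_right ?_ hq0.le)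
          have : k ≤ t + 1 := by omega
          exact_mod_cast this
        have h7 : (row H \ deleted (clear q H) B (t + 1)).card = 0 := by omega
        have h8 : v ∈ row H \ deleted (clear q H) B (t + 1) :=
          Finset.mem_sdiff.2 ⟨mem_row.2 h3, hdel⟩
        rw [card_eq_zero.1 h7] at h8
        exact notMem_empty _ h8
  constructor
  · intro t
    obtain ⟨h1, h2⟩ := clear_spec q H t (fun i => B i) (deleted (clear q H) B t)
    refine ⟨h2.le.trans (min_le_left _ _), disjoint_left.2 fun v hv hvB => ?_⟩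
    have h3 := mem_row.1 (Finset.mem_sdiff.1 (h1 hv)).1
    have h4 := hlt t v hvB
    omega
  · exact eventually_const hs (R := (range H).biUnion row) fun t v hv =>
      mem_biUnion.2 ⟨(vx v).2, mem_range.2 (hlt t v hv), mem_row.2 rfl⟩

/-! ### Spreader wins if `q ≤ 1` -/

/-- a play in which the spread is a function of the turn, of the occupied and of the deleted
vertices -/
lemma exists_play {V : Type} [DecidableEq V] (σ : Strategy V) (B₀ : Finset V)
    (F : ℕ → Finset V → Finset V → Finset V) :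
    ∃ B : ℕ → Finset V, B 0 = B₀ ∧ ∀ t, B (t + 1) = F t (B t) (deleted σ B (t + 1)) := by
  classical
  let st : ℕ → (ℕ → Finset V) × Finset V := fun n => Nat.rec (fun _ => B₀, ∅)
    (fun t p => (Function.update p.1 (t + 1) (F t (p.1 t) (p.2 ∪ σ t (fun i => p.1 i) p.2)),
      p.2 ∪ σ t (fun i => p.1 i) p.2)) n
  have hst : ∀ t, st (t + 1) = (Function.update (st t).1 (t + 1)
      (F t ((st t).1 t) ((st t).2 ∪ σ t (fun i => (st t).1 i) (st t).2)),
      (st t).2 ∪ σ t (fun i => (st t).1 i) (st t).2) := fun t => rfl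
  have hcoh : ∀ t, ∀ i ≤ t, (st t).1 i = (st i).1 i := by
    intro t
    induction t with
    | zero =>
      intro i hi
      rw [Nat.le_zero.1 hi]
    | succ t ih =>
      intro i hi
      by_cases h : i = t + 1
      · rw [h]
      · rw [hst]
        simp only [Function.update_of_ne h]
        exact ih i (by omega)
  have hfun : ∀ t, (fun i : Fin (t + 1) => (st t).1 i) = fun i : Fin (t + 1) => (st i).1 i :=
    fun t => funext fun i => hcoh t i (by have := i.2; omega)
  have hdel : ∀ t, deleted σ (fun t => (st t).1 t) t = (st t).2 := by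
    intro t
    induction t with
    | zero => rfl
    | succ t ih =>
      rw [hst]
      show deleted σ (fun t => (st t).1 t) t ∪ σ t _ (deleted σ (fun t => (st t).1 t) t) = _
      rw [ih]
      simp only
      rw [hfun]
  refine ⟨fun t => (st t).1 t, rfl, fun t => ?_⟩
  rw [hdel]
  show (st (t + 1)).1 (t + 1) = F t ((st t).1 t) (st (t + 1)).2
  rw [hst]
  simp only [Function.update_self]

open Classical in
/-- the columns occupied in row `ρ`, given the deleted vertices `D` and the columns `S` which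
could be occupied -/
noncomputable def resp (ρ : ℕ) (D : Finset Vx) (S : Finset ℕ) : Finset ℕ :=
  if h : D.card ≤ ρ ∧ ∀ u ∈ S, u ≤ ρ then
    (exists_response (blocks.w_pos ρ) (blocks_upper ρ) h.1 h.2).choose
  else ∅

lemma resp_sub (ρ : ℕ) (D : Finset Vx) (S : Finset ℕ) :
    resp ρ D S ⊆ S ∧ (resp ρ D S).card ≤ 216 * blocks.w ρ ^ 2 := by
  unfold resp
  split_ifs with h
  · have h1 := (exists_response (blocks.w_pos ρ) (blocks_upper ρ) h.1 h.2).choose_spec
    exact ⟨h1.1, h1.2.1⟩
  · exact ⟨empty_subset _, by simp⟩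

lemma resp_spec {ρ : ℕ} {D : Finset Vx} {S : Finset ℕ} (h1 : D.card ≤ ρ) (h2 : ∀ u ∈ S, u ≤ ρ) :
    rch D ρ (resp ρ D S) (2 * blocks.w ρ) = rch D ρ S (2 * blocks.w ρ) ∧
      (Robust (2 * blocks.w ρ) D ρ (resp ρ D S) S ∨
        198 * blocks.w ρ ^ 2 < weight D ρ (blocks.w ρ) S) := by
  have h : D.card ≤ ρ ∧ ∀ u ∈ S, u ≤ ρ := ⟨h1, h2⟩
  unfold resp
  rw [dif_pos h]
  exact (exists_response (blocks.w_pos ρ) (blocks_upper ρ) h.1 h.2).choose_spec.2.2

/-- the occupied columns of row `y` -/
def cols (b : Finset EighthPlane) (y : ℕ) : Finset ℕ :=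
  (b.filter fun v => (vx v).2 = y).image fun v => (vx v).1

lemma mem_cols {b : Finset EighthPlane} {y u : ℕ} :
    u ∈ cols b y ↔ ∃ v ∈ b, vx v = (u, y) := by
  simp only [cols, mem_image, mem_filter]
  constructor
  · rintro ⟨v, ⟨hv, h1⟩, h2⟩
    exact ⟨v, hv, Prod.ext h2 h1⟩
  · rintro ⟨v, hv, h⟩
    exact ⟨v, ⟨hv, by rw [h]⟩, by rw [h]⟩

/-- the spread of Spreader at turn `t + 1` -/
noncomputable def spread (t : ℕ) (b d : Finset EighthPlane) : Finset EighthPlane :=
  b ∪ (resp (t + 1) (d.image vx) (stp (d.image vx) t (cols b t))).image (pt (t + 1))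

/-- Spreader wins from the apex if `q ≤ 1`. -/
theorem spreader_wins {q : ℝ} (hq : 0 < q) (hq1 : q ≤ 1) {g : ℕ → ℕ∞}
    (hg : ∀ t, 1 ≤ t → ((216 * blocks.w t ^ 2 : ℕ) : ℕ∞) ≤ g t) :
    ¬ ContainerWins up q g {pt 0 0} := by
  classical
  rintro ⟨σ, hσ⟩
  obtain ⟨B, hB0, hB⟩ := exists_play σ {pt 0 0} spread
  set D : ℕ → Finset Vx := fun t => (deleted σ B t).image vx with hD
  set A : ℕ → Finset ℕ := fun t => cols (B t) t with hA
  set S : ℕ → Finset ℕ := fun t => Nat.rec {0} (fun t _ => stp (D (t + 1)) t (A t)) t with hS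
  have hS0 : S 0 = {0} := rfl
  have hSs : ∀ t, S (t + 1) = stp (D (t + 1)) t (A t) := fun t => rfl
  have hB' : ∀ t, B (t + 1) = B t ∪ (resp (t + 1) (D (t + 1)) (S (t + 1))).image (pt (t + 1)) :=
    fun t => hB t
  have hAle : ∀ t, ∀ u ∈ A t, u ≤ t := by
    intro t u hu
    obtain ⟨v, -, hv⟩ := mem_cols.1 hu
    have := vx_le v
    rw [hv] at this
    exact this
  have hSle : ∀ t, ∀ u ∈ S t, u ≤ t := by
    intro t
    cases t with
    | zero =>
      intro u hu
      rw [hS0, mem_singleton] at hu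
      omega
    | succ t =>
      intro u hu
      rw [hSs, mem_stp] at hu
      rcases hu.1 with h | ⟨w, h, rfl⟩
      · have := hAle t u h
        omega
      · have := hAle t w h
        omega
  have hrow : ∀ t, ∀ v ∈ B t, (vx v).2 ≤ t := by
    intro t
    induction t with
    | zero =>
      intro v hv
      rw [hB0, mem_singleton] at hv
      rw [hv, vx_pt le_rfl]
    | succ t ih =>
      intro v hv
      rw [hB' t] at hv
      rcases mem_union.1 hv with h | h
      · have := ih v h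
        omega
      · obtain ⟨u, hu, rfl⟩ := mem_image.1 h
        rw [vx_pt (hSle _ _ ((resp_sub _ _ _).1 hu))]
  have hA0 : A 0 = {0} := by
    ext u
    rw [mem_singleton]
    constructor
    · intro h
      have := hAle 0 u h
      omega
    · rintro rfl
      exact mem_cols.2 ⟨pt 0 0, by rw [hB0]; exact mem_singleton_self _, vx_pt le_rfl⟩
  have hAs : ∀ t, A (t + 1) = resp (t + 1) (D (t + 1)) (S (t + 1)) := by
    intro t
    ext u
    constructor
    · intro h
      obtain ⟨v, hv, hvu⟩ := mem_cols.1 h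
      rw [hB' t] at hv
      rcases mem_union.1 hv with h1 | h1
      · have := hrow t v h1
        rw [hvu] at this
        simp only at this
        omega
      · obtain ⟨w, hw, rfl⟩ := mem_image.1 h1
        rw [vx_pt (hSle _ _ ((resp_sub _ _ _).1 hw))] at hvu
        have : w = u := congrArg Prod.fst hvu
        rw [← this]
        exact hw
    · intro h
      refine mem_cols.2 ⟨pt (t + 1) u, ?_, vx_pt (hSle _ _ ((resp_sub _ _ _).1 h))⟩
      rw [hB' t]
      exact mem_union_right _ (mem_image_of_mem _ h)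
  have hlegal : SpreaderLegal up g σ B := by
    intro t
    refine ⟨by rw [hB' t]; exact subset_union_left, ?_, ?_⟩
    · refine le_trans ?_ (hg (t + 1) (by omega))
      have h1 : (B (t + 1) \ B t).card ≤ 216 * blocks.w (t + 1) ^ 2 := by
        have h2 : B (t + 1) \ B t ⊆
            (resp (t + 1) (D (t + 1)) (S (t + 1))).image (pt (t + 1)) := by
          intro v hv
          obtain ⟨h3, h4⟩ := Finset.mem_sdiff.1 hv
          rw [hB' t] at h3
          exact (mem_union.1 h3).resolve_left h4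
        exact (card_le_card h2).trans (card_image_le.trans (resp_sub _ _ _).2)
      exact_mod_cast h1
    · intro v hv
      obtain ⟨h3, h4⟩ := Finset.mem_sdiff.1 hv
      rw [hB' t] at h3
      obtain ⟨u, hu, rfl⟩ := mem_image.1 ((mem_union.1 h3).resolve_left h4)
      have hu1 : u ∈ S (t + 1) := (resp_sub _ _ _).1 hu
      have hvx := vx_pt (hSle (t + 1) u hu1)
      rw [hSs, mem_stp] at hu1
      refine ⟨fun h => hu1.2 ?_, ?_⟩
      · rw [← hvx]
        exact mem_image_of_mem _ h
      · rcases hu1.1 with h | ⟨w, h, hw⟩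
        · obtain ⟨z, hz, hzu⟩ := mem_cols.1 h
          refine ⟨z, hz, up_iff.2 ?_⟩
          rw [hvx, hzu]
          exact ⟨rfl, Or.inl rfl⟩
        · obtain ⟨z, hz, hzu⟩ := mem_cols.1 h
          refine ⟨z, hz, up_iff.2 ?_⟩
          rw [hvx, hzu]
          exact ⟨rfl, Or.inr hw.symm⟩
  obtain ⟨hleg, T₀, hT₀⟩ := hσ B hB0 hlegal
  have hDsub : ∀ t, D t ⊆ D (t + 1) := fun t => image_subset_image subset_union_left
  have hDcard : ∀ t, (D (t + 1) \ D t).card ≤ 1 := by
    intro t
    have h1 : D (t + 1) \ D t ⊆ (σ t (fun i => B i) (deleted σ B t)).image vx := by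
      intro v hv
      obtain ⟨h2, h3⟩ := Finset.mem_sdiff.1 hv
      obtain ⟨z, hz, rfl⟩ := mem_image.1 h2
      rcases mem_union.1 hz with h | h
      · exact absurd (mem_image_of_mem _ h) h3
      · exact mem_image_of_mem _ h
    exact (card_le_card h1).trans (card_image_le.trans ((hleg t).1.trans (quota_le_one hq hq1 t)))
  have hDle : ∀ t, (D t).card ≤ t := by
    intro t
    induction t with
    | zero => simp [hD, deleted]
    | succ t ih =>
      have h1 := hDcard t
      have h2 := card_sdiff_add_card_eq_card (hDsub t)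
      omega
  have hAT : A (T₀ + 1) = ∅ := by
    rw [eq_empty_iff_forall_notMem]
    intro u hu
    obtain ⟨v, hv, hvu⟩ := mem_cols.1 hu
    rw [hT₀ (T₀ + 1) (by omega)] at hv
    have := hrow T₀ v hv
    rw [hvu] at this
    simp only at this
    omega
  have hex : ∃ t, S t = ∅ := by
    refine ⟨T₀ + 2, ?_⟩
    rw [hSs, hAT]
    rfl
  have hfirst := Nat.find_spec hex
  have hmin := fun m (h : m < Nat.find hex) => Nat.find_min hex h
  refine Play.false (K := blocks) (T := Nat.find hex)
    { D := D, A := A, S := S, D0 := ?_, Dsub := hDsub, Dcard := hDcard, S0 := hS0,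
      Ssucc := fun t _ => hSs t, AS := ?_, Sne := ?_, ST := hfirst, Req := ?_, rob := ?_ }
    blocks_upper
  · simp [hD, deleted]
  · intro t _
    cases t with
    | zero => rw [hA0, hS0]
    | succ t =>
      rw [hAs t]
      exact (resp_sub _ _ _).1
  · exact fun t ht => nonempty_iff_ne_empty.2 (hmin t ht)
  · intro t _
    cases t with
    | zero => rw [hA0, hS0]
    | succ t =>
      rw [hAs t]
      exact (resp_spec (hDle _) (hSle _)).1
  · intro t _
    cases t with
    | zero =>
      rw [hA0, hS0]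
      exact Or.inl (robust_of_subset Subset.rfl)
    | succ t =>
      rw [hAs t]
      exact (resp_spec (hDle _) (hSle _)).2

lemma winSet_eq {g : ℕ → ℕ∞}
    (hg : ∀ t, 1 ≤ t → ((216 * blocks.w t ^ 2 : ℕ) : ℕ∞) ≤ g t) : winSet up g = Set.Ioi 1 := by
  ext q
  constructor
  · rintro ⟨h0, h1⟩
    by_contra hcon
    exact spreader_wins h0 (not_lt.1 hcon) hg (h1 _)
  · intro h
    exact ⟨one_pos.trans h, fun B₀ => container_wins h g B₀⟩

lemma rpow_bound {t : ℕ} (ht : 1 ≤ t) : ((blocks.w t : ℝ)) ^ 2 ≤ (t : ℝ) ^ (2 / 3 : ℝ) := by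
  have h1 : ((blocks.w t : ℝ)) ^ 3 ≤ t := by exact_mod_cast blocks_lower ht
  have h2 : ((blocks.w t : ℝ)) ^ 2 = (((blocks.w t : ℝ)) ^ 3) ^ (2 / 3 : ℝ) := by
    rw [← Real.rpow_natCast, ← Real.rpow_natCast, ← Real.rpow_mul (Nat.cast_nonneg _)]
    norm_num
  rw [h2]
  exact Real.rpow_le_rpow (by positivity) h1 (by norm_num)

/-- **MP_24b7a7_co**, `G = E`: if `g(t) ≥ 216 t^{2/3}` for all `t ≥ 1`, then
`q(E, g) = q(E, ∞) = (1, ∞)`. In particular, `q(E, C t^{2/3}) = q(E, ∞)` for all `C ≥ 217`. -/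
theorem result :
    (∀ g : ℕ → ℕ, (∀ t : ℕ, 1 ≤ t → 216 * (t : ℝ) ^ (2 / 3 : ℝ) ≤ g t) →
      winSet up (fun t => (g t : ℕ∞)) = Set.Ioi 1 ∧
      winSet up (fun t => (g t : ℕ∞)) = winSet up (fun _ => ⊤)) ∧
    ∀ C : ℝ, 217 ≤ C → winSet up (fun t => (⌊C * (t : ℝ) ^ (2 / 3 : ℝ)⌋₊ : ℕ∞)) =
      winSet up (fun _ => ⊤) := by
  have h0 : winSet up (fun _ => ⊤) = Set.Ioi 1 := winSet_eq fun _ _ => le_top
  have h1 : ∀ g : ℕ → ℕ, (∀ t : ℕ, 1 ≤ t → 216 * (t : ℝ) ^ (2 / 3 : ℝ) ≤ g t) →
      winSet up (fun t => (g t : ℕ∞)) = Set.Ioi 1 := by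
    intro g hg
    refine winSet_eq fun t ht => ?_
    have h2 : ((216 * blocks.w t ^ 2 : ℕ) : ℝ) ≤ g t := by
      push_cast
      have h3 := rpow_bound ht
      have h4 := hg t ht
      linarith
    exact_mod_cast h2
  refine ⟨fun g hg => ⟨h1 g hg, (h1 g hg).trans h0.symm⟩, fun C hC => ?_⟩
  rw [h0]
  refine h1 (fun t => ⌊C * (t : ℝ) ^ (2 / 3 : ℝ)⌋₊) fun t ht => ?_
  have h3 : (1 : ℝ) ≤ (t : ℝ) ^ (2 / 3 : ℝ) :=
    Real.one_le_rpow (by exact_mod_cast ht) (by norm_num)
  have h4 := Nat.lt_floor_add_one (C * (t : ℝ) ^ (2 / 3 : ℝ))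
  nlinarith

end Pool.Agent.Results.MP_24b7a7_co.TwoThirds
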